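import Pool.Agent.Lib.helper21.Hull

namespace Pool.Agent.Results.MP_e5f4bd_lc.OCA

open Pool.Agent.Lib.helper21.Hull MeasureTheory

theorem result : (OCA → ¬ ∃ ψ, MonoHull {A | NullMeasurableSet A volume} ψ) ∧
    (MA → addN = cofN ∧ ∃ ψ, MonoHull {A | volume A = 0} ψ) :=
  ⟨noHull, fun h => ⟨add_eq_cof h, tower (add_eq_cof h)⟩⟩

end Pool.Agent.Results.MP_e5f4bd_lc.OCA
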